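import Pool.Agent.Helper1.ZN.Defs

namespace Pool.Agent.Helper1.ZN

open Finset Polynomial
open Pool.Agent.Helper47.SAP (Pat Realizes Irred SpecArb IsD Mt)

/-- Horner values at `-1`. -/
def E1_H (a b c d : ℝ) : ℕ → ℝ
  | 2 | 4 | 6 | 8 => 1
  | 5 | 7 | 9 | 11 | 13 => a
  | 10 | 12 | 14 | 16 | 18 => b
  | 15 | 17 | 19 | 21 | 23 => c
  | 20 | 22 | 24 => d
  | _ => 0

theorem okS_exact (κ1 κ2 : ℝ) (h1 : 19 / 10 ≤ κ1) (h1' : κ1 ≤ 2) (h2 : 19 / 10 ≤ κ2)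
    (h2' : κ2 ≤ 2) :
    OkS (fun x => (x ^ 4 + x ^ 3 + x ^ 2 + x + 1) * (x ^ 10 - κ1 * x ^ 5 + 1) *
      (x ^ 10 - κ2 * x ^ 5 + 1)) := by
  have hp : 0 ≤ κ1 * κ2 := by nlinarith
  have ha : -(κ1 + κ2) - 1 ≠ 0 := by linarith
  have hb : 2 + κ1 * κ2 + (κ1 + κ2) + 1 ≠ 0 := by linarith
  have hc : -2 * (κ1 + κ2) - (2 + κ1 * κ2) - 1 ≠ 0 := by linarith
  have hd : 2 + (2 + κ1 * κ2) + 2 * (κ1 + κ2) ≠ 0 := by linarith
  refine ⟨-1, fun l => -E1_H (-(κ1 + κ2) - 1) (2 + κ1 * κ2 + (κ1 + κ2) + 1)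
    (-2 * (κ1 + κ2) - (2 + κ1 * κ2) - 1) (2 + (2 + κ1 * κ2) + 2 * (κ1 + κ2)) l, by norm_num, ?_, ?_⟩
  · intro l hl
    rw [mem_erase, mem_Icc] at hl
    obtain ⟨hl3, hl2, hl24⟩ := hl
    rw [neg_ne_zero]
    interval_cases l <;> first | exact absurd rfl hl3 | (unfold E1_H; first | exact one_ne_zero | exact ha | exact hb | exact hc | exact hd)
  · intro x
    have hs : (Icc 2 23).erase 3 = {2, 4, 5, 6, 7, 8, 9, 10, 11, 12, 13, 14, 15, 16, 17, 18, 19, 20,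
      21, 22, 23} := by decide
    rw [hs]
    simp [E1_H, sum_insert]
    ring

end Pool.Agent.Helper1.ZN
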