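import Pool.Agent.Helper1.ZN.Defs

namespace Pool.Agent.Helper1.ZN

open Finset Polynomial
open Pool.Agent.Helper47.SAP (Pat Realizes Irred SpecArb IsD Mt)

theorem patN_card (L : Finset (ℕ × ℕ)) (N t : ℕ) (hN : 0 < N) (ht : 0 < t)
    (hL : ∀ p ∈ L, p.2 ≤ p.1 ∧ p.1 < N) : (patN L N t).card + 1 = N * t + L.card := by
  classical
  have hNt : 0 < N * t := Nat.mul_pos hN ht
  have hsplit : patN L N t = (univ.filter fun p : Fin (N * t) × Fin (N * t) => (p.2 : ℕ) = p.1 + 1) ∪
      (univ.filter fun p : Fin (N * t) × Fin (N * t) => (p.2 : ℕ) ≤ p.1 ∧ (p.1 : ℕ) % t = t - 1 ∧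
        (p.2 : ℕ) % t = 0 ∧ ((p.1 : ℕ) / t, (p.2 : ℕ) / t) ∈ L) := by
    unfold patN
    rw [filter_or]
  have hdis : Disjoint (univ.filter fun p : Fin (N * t) × Fin (N * t) => (p.2 : ℕ) = p.1 + 1)
      (univ.filter fun p : Fin (N * t) × Fin (N * t) => (p.2 : ℕ) ≤ p.1 ∧ (p.1 : ℕ) % t = t - 1 ∧
        (p.2 : ℕ) % t = 0 ∧ ((p.1 : ℕ) / t, (p.2 : ℕ) / t) ∈ L) := by
    rw [disjoint_filter]
    rintro p - h1 ⟨h2, -⟩
    omega
  rw [hsplit, card_union_of_disjoint hdis]
  have h1 : (univ.filter fun p : Fin (N * t) × Fin (N * t) => (p.2 : ℕ) = p.1 + 1).card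
      = N * t - 1 := by
    rw [← card_range (N * t - 1)]
    refine card_bij' (fun p _ => (p.1 : ℕ))
      (fun i hi => ((⟨i, by have := mem_range.mp hi; omega⟩ : Fin (N * t)),
        (⟨i + 1, by have := mem_range.mp hi; omega⟩ : Fin (N * t)))) ?_ ?_ ?_ ?_
    · intro p hp
      simp only [mem_filter, mem_univ, true_and] at hp
      have := p.2.isLt
      simp only [mem_range]
      omega
    · intro i hi
      simp
    · intro p hp
      simp only [mem_filter, mem_univ, true_and] at hp
      ext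
      · rfl
      · simp [hp]
    · intro i hi
      rfl
  have h2 : (univ.filter fun p : Fin (N * t) × Fin (N * t) => (p.2 : ℕ) ≤ p.1 ∧
      (p.1 : ℕ) % t = t - 1 ∧ (p.2 : ℕ) % t = 0 ∧ ((p.1 : ℕ) / t, (p.2 : ℕ) / t) ∈ L).card
      = L.card := by
    have key : ∀ q ∈ L, q.1 * t + (t - 1) < N * t ∧ q.2 * t < N * t := by
      intro q hq
      obtain ⟨h, h'⟩ := hL q hq
      have h3 : (q.1 + 1) * t ≤ N * t := Nat.mul_le_mul_right t h'
      have h4 : (q.2 + 1) * t ≤ N * t := Nat.mul_le_mul_right t (by omega)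
      rw [add_mul, one_mul] at h3 h4
      omega
    refine card_bij' (fun p _ => ((p.1 : ℕ) / t, (p.2 : ℕ) / t))
      (fun q hq => ((⟨q.1 * t + (t - 1), (key q hq).1⟩ : Fin (N * t)),
        (⟨q.2 * t, (key q hq).2⟩ : Fin (N * t)))) ?_ ?_ ?_ ?_
    · intro p hp
      simp only [mem_filter, mem_univ, true_and] at hp
      exact hp.2.2.2
    · intro q hq
      obtain ⟨h, h'⟩ := hL q hq
      have e1 : (q.1 * t + (t - 1)) / t = q.1 := by
        rw [add_comm, Nat.add_mul_div_right _ _ ht, Nat.div_eq_of_lt (by omega), zero_add]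
      have e2 : (q.1 * t + (t - 1)) % t = t - 1 := by
        rw [add_comm, Nat.add_mul_mod_self_right, Nat.mod_eq_of_lt (by omega)]
      have e3 : q.2 * t / t = q.2 := Nat.mul_div_cancel _ ht
      have e4 : q.2 * t % t = 0 := Nat.mul_mod_left _ _
      have e5 : q.2 * t ≤ q.1 * t := Nat.mul_le_mul_right t h
      simp only [mem_filter, mem_univ, true_and, e1, e2, e3, e4]
      exact ⟨by omega, hq⟩
    · intro p hp
      simp only [mem_filter, mem_univ, true_and] at hp
      obtain ⟨-, h2, h3, -⟩ := hp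
      have d1 := Nat.div_add_mod (p.1 : ℕ) t
      have d2 := Nat.div_add_mod (p.2 : ℕ) t
      rw [h2, mul_comm] at d1
      rw [h3, mul_comm, add_zero] at d2
      ext
      · exact d1
      · exact d2
    · intro q hq
      have e1 : (q.1 * t + (t - 1)) / t = q.1 := by
        rw [add_comm, Nat.add_mul_div_right _ _ ht, Nat.div_eq_of_lt (by omega), zero_add]
      have e3 : q.2 * t / t = q.2 := Nat.mul_div_cancel _ ht
      ext
      · exact e1
      · exact e3
  rw [h1, h2]
  omega

theorem patN_irred (L : Finset (ℕ × ℕ)) (N t : ℕ) (hN : 0 < N) (ht : 0 < t)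
    (hL : (N - 1, 0) ∈ L) : Irred (patN L N t) := by
  have hNt : 0 < N * t := Nat.mul_pos hN ht
  have step : ∀ (i j : ℕ) (hi : i < N * t) (hj : j < N * t), i ≤ j →
      Relation.ReflTransGen (fun a b : Fin (N * t) => a ≠ b ∧ (a, b) ∈ patN L N t)
        ⟨i, hi⟩ ⟨j, hj⟩ := by
    intro i j hi hj hij
    induction j, hij using Nat.le_induction with
    | base => exact Relation.ReflTransGen.refl
    | succ j hij ih =>
      refine Relation.ReflTransGen.tail (ih (by omega)) ⟨?_, ?_⟩
      · intro h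
        have := congrArg Fin.val h
        simp at this
      · simp [patN]
  intro i j
  have h1 := step i (N * t - 1) i.isLt (by omega) (by omega)
  have h2 : Relation.ReflTransGen (fun a b : Fin (N * t) => a ≠ b ∧ (a, b) ∈ patN L N t)
      ⟨N * t - 1, by omega⟩ ⟨0, hNt⟩ := by
    by_cases hone : N * t = 1
    · have : (⟨N * t - 1, by omega⟩ : Fin (N * t)) = ⟨0, hNt⟩ := by
        apply Fin.ext
        simp only
        omega
      rw [this]
    refine Relation.ReflTransGen.single ⟨?_, ?_⟩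
    · intro h
      have := congrArg Fin.val h
      simp only at this
      omega
    · have e0 : N * t - 1 = t - 1 + (N - 1) * t := by
        obtain ⟨M, rfl⟩ : ∃ M, N = M + 1 := ⟨N - 1, by omega⟩
        rw [add_mul, one_mul, Nat.add_sub_cancel]
        omega
      have e1 : (N * t - 1) / t = N - 1 := by
        rw [e0, Nat.add_mul_div_right _ _ ht, Nat.div_eq_of_lt (by omega), zero_add]
      have e2 : (N * t - 1) % t = t - 1 := by
        rw [e0, Nat.add_mul_mod_self_right, Nat.mod_eq_of_lt (by omega)]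
      simp only [patN, mem_filter, mem_univ, true_and, e1, e2, Nat.zero_div, Nat.zero_mod]
      exact Or.inr ⟨by omega, hL⟩
  have h3 := step 0 j hNt j.isLt (by omega)
  exact (h1.trans h2).trans h3

end Pool.Agent.Helper1.ZN
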